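import Pool.Agent.Helper861.GccMain

set_option autoImplicit false

namespace Pool.Agent.Results.MP_2c4812_co.AllBounds

open Pool.Agent.Helper861.Gcc

/-- (1) The least constant `d` with `mr(G) + mr(Ḡ) ≤ d |G|` for all graphs is exactly `3/2`.
(2) `2 mr(G) + mr(Ḡ) ≤ 2|G| + 1` and hence `mr(G) + mr(Ḡ) ≤ (4|G| + 2)/3` for every graph.
(3) `mr(G) + mr(Ḡ) ≤ |G| + 1 + (Δ(G) - δ(G))` for every graph on at least one vertex. -/
theorem result :
    IsLeast {d : ℝ | ∀ (n : ℕ) (G : SimpleGraph (Fin n)), (mr G : ℝ) + mr Gᶜ ≤ d * n} (3 / 2) ∧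
    (∀ (n : ℕ) (G : SimpleGraph (Fin n)),
      2 * mr G + mr Gᶜ ≤ 2 * n + 1 ∧ 3 * (mr G + mr Gᶜ) ≤ 4 * n + 2) ∧
    (∀ (n : ℕ), 0 < n → ∀ (G : SimpleGraph (Fin n)) [DecidableRel G.Adj],
      mr G + mr Gᶜ + G.minDegree ≤ n + 1 + G.maxDegree) := by
  refine ⟨isLeast_three_halves, ?_, fun n hn G _ => degree_gap n hn G⟩
  intro n G
  have h1 := two_mr G
  have h2 := four_thirds G
  rw [Fintype.card_fin] at h1 h2
  exact ⟨h1, h2⟩

end Pool.Agent.Results.MP_2c4812_co.AllBounds
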